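import Pool.Agent.Work.MP_6f54aa_an.Pieces

/-!
# The finite quotients do not carry almost invariant families of probability measures
-/

open Equiv

namespace GhostIdeals

open FreeGroup (startsWith)

section
variable {m S : ℕ} (P : Finset (Perm F)) (k : Perm F → Perm F → ℝ)

/-- The averaged function on the free group. -/
noncomputable def avg (m : ℕ) (P : Finset (Perm F)) (k : Perm F → Perm F → ℝ) (w : F) : ℝ :=
  ∑ q ∈ P, k q (q * proj m w)

theorem avg_nonneg (k0 : ∀ p q, 0 ≤ k p q) (w : F) : 0 ≤ avg m P k w :=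
  Finset.sum_nonneg fun _ _ => k0 _ _

theorem mem_mul (hP : ∀ q, q ∈ P ↔ q ∈ Set.range (proj m)) {q : Perm F} (hq : q ∈ P) (w : F) :
    q * proj m w ∈ P := by
  obtain ⟨v, rfl⟩ := (hP q).1 hq
  exact (hP _).2 ⟨v * w, map_mul _ _ _⟩

/-- The elements of the free group of length at most `S`. -/
noncomputable def fball (S : ℕ) : Finset F := (finite_norm_le S).toFinset

theorem mem_fball {S : ℕ} {w : F} : w ∈ fball S ↔ w.norm ≤ S := by
  simp [fball]

theorem avg_eq_zero (hm : 2 * S + 2 ≤ m) (hP : ∀ q, q ∈ P ↔ q ∈ Set.range (proj m))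
    (kS : ∀ p ∈ P, ∀ q ∈ P, k p q ≠ 0 → len m (p⁻¹ * q) ≤ S)
    {w : F} (hw : w ∈ fball (S + 1)) (hw' : w ∉ fball S) : avg m P k w = 0 := by
  refine Finset.sum_eq_zero fun q hq => ?_
  by_contra hne
  have h1 := kS q hq _ (mem_mul P hP hq w) hne
  rw [inv_mul_cancel_left] at h1
  obtain ⟨v, hv, hvw⟩ := exists_of_len_le h1 (by omega)
  have h2 : w.norm ≤ S + 1 := mem_fball.1 hw
  have := proj_inj (m := m) (v := v) (w := w) (by omega) hvw
  subst this
  exact hw' (mem_fball.2 hv)

theorem sum_avg (hm : 2 * S + 2 ≤ m) (hP : ∀ q, q ∈ P ↔ q ∈ Set.range (proj m))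
    (kS : ∀ p ∈ P, ∀ q ∈ P, k p q ≠ 0 → len m (p⁻¹ * q) ≤ S) :
    ∑ w ∈ fball S, avg m P k w = ∑ q ∈ P, ∑ q' ∈ P, k q q' := by
  classical
  unfold avg
  rw [Finset.sum_comm]
  refine Finset.sum_congr rfl fun q hq => ?_
  have hinj : Set.InjOn (fun w : F => q * proj m w) (fball S : Set F) := by
    intro v hv w hw hvw
    have h1 : proj m v = proj m w := mul_left_cancel hvw
    have h2 : v.norm ≤ S := mem_fball.1 hv
    have h3 : w.norm ≤ S := mem_fball.1 hw
    exact proj_inj (m := m) (by omega) h1
  rw [← Finset.sum_image (f := fun q' => k q q') (s := fball S) hinj]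
  refine Finset.sum_subset ?_ ?_
  · intro x hx
    obtain ⟨w, _, rfl⟩ := Finset.mem_image.1 hx
    exact mem_mul P hP hq w
  · intro q' hq' hn
    by_contra hne
    have h1 := kS q hq q' hq' hne
    obtain ⟨v, hv, hvw⟩ := exists_of_len_le h1 (by omega)
    refine hn (Finset.mem_image.2 ⟨v, mem_fball.2 hv, ?_⟩)
    show q * proj m v = q'
    rw [hvw, mul_inv_cancel_left]

theorem avg_shift (hP : ∀ q, q ∈ P ↔ q ∈ Set.range (proj m)) (s : Bool) (w : F) :
    avg m P k (FreeGroup.mk [(s, false)] * w) =
      ∑ q ∈ P, k (q * proj m (FreeGroup.of s)) (q * proj m w) := by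
  have ha : FreeGroup.mk [(s, false)] = (FreeGroup.of s)⁻¹ := rfl
  unfold avg
  refine Finset.sum_bij' (fun q _ => q * proj m (FreeGroup.of s)⁻¹)
    (fun q _ => q * proj m (FreeGroup.of s)) ?_ ?_ ?_ ?_ ?_
  · intro q hq; exact mem_mul P hP hq _
  · intro q hq; exact mem_mul P hP hq _
  · intro q _; simp
  · intro q _; simp
  · intro q _
    rw [ha, map_mul, map_inv, inv_mul_cancel_right, mul_assoc]

theorem avg_diff (hm : 2 * S + 2 ≤ m) (hP : ∀ q, q ∈ P ↔ q ∈ Set.range (proj m))
    (_hP0 : P.Nonempty)
    (k2 : ∀ p ∈ P, ∀ s : Bool,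
      ∑ q ∈ P, |k (p * proj m (FreeGroup.of s)) q - k p q| < 1 / 4) (s : Bool) :
    ∑ w ∈ fball S, |avg m P k w - avg m P k (FreeGroup.mk [(s, false)] * w)| ≤
      (P.card : ℝ) * (1 / 4) := by
  classical
  calc ∑ w ∈ fball S, |avg m P k w - avg m P k (FreeGroup.mk [(s, false)] * w)|
      ≤ ∑ w ∈ fball S, ∑ q ∈ P,
          |k (q * proj m (FreeGroup.of s)) (q * proj m w) - k q (q * proj m w)| := by
        refine Finset.sum_le_sum fun w _ => ?_
        rw [avg_shift P k hP s w, avg, ← Finset.sum_sub_distrib]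
        refine (Finset.abs_sum_le_sum_abs _ _).trans (Finset.sum_le_sum fun q _ => ?_)
        rw [abs_sub_comm]
    _ = ∑ q ∈ P, ∑ w ∈ fball S,
          |k (q * proj m (FreeGroup.of s)) (q * proj m w) - k q (q * proj m w)| :=
        Finset.sum_comm
    _ ≤ ∑ q ∈ P, ∑ q' ∈ P, |k (q * proj m (FreeGroup.of s)) q' - k q q'| := by
        refine Finset.sum_le_sum fun q hq => ?_
        have hinj : Set.InjOn (fun w : F => q * proj m w) (fball S : Set F) := by
          intro v hv w hw hvw
          have h1 : proj m v = proj m w := mul_left_cancel hvw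
          have h2 : v.norm ≤ S := mem_fball.1 hv
          have h3 : w.norm ≤ S := mem_fball.1 hw
          exact proj_inj (m := m) (by omega) h1
        rw [← Finset.sum_image
          (f := fun q' => |k (q * proj m (FreeGroup.of s)) q' - k q q'|) (s := fball S) hinj]
        refine Finset.sum_le_sum_of_subset_of_nonneg ?_ fun _ _ _ => abs_nonneg _
        intro x hx
        obtain ⟨w, _, rfl⟩ := Finset.mem_image.1 hx
        exact mem_mul P hP hq w
    _ ≤ ∑ q ∈ P, (1 / 4 : ℝ) := Finset.sum_le_sum fun q hq => (k2 q hq s).le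
    _ = (P.card : ℝ) * (1 / 4) := by rw [Finset.sum_const, nsmul_eq_mul]

open scoped Classical in
theorem avg_paradox (hm : 2 * S + 2 ≤ m) (hP : ∀ q, q ∈ P ↔ q ∈ Set.range (proj m))
    (k0 : ∀ p q, 0 ≤ k p q)
    (kS : ∀ p ∈ P, ∀ q ∈ P, k p q ≠ 0 → len m (p⁻¹ * q) ≤ S) (s : Bool) :
    ∑ w ∈ fball S, avg m P k w ≤
      ∑ w ∈ (fball S).filter (fun w => w ∈ startsWith (s, true)), avg m P k w +
      ∑ w ∈ (fball S).filter (fun w => w ∈ startsWith (s, false)), avg m P k w +
      ∑ w ∈ fball S, |avg m P k w - avg m P k (FreeGroup.mk [(s, false)] * w)| := by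
  rw [← Finset.sum_filter_add_sum_filter_not (fball S) (fun w => w ∈ startsWith (s, true))
    (fun w => avg m P k w)]
  rw [add_assoc]
  refine add_le_add le_rfl ?_
  calc ∑ w ∈ (fball S).filter (fun w => ¬ w ∈ startsWith (s, true)), avg m P k w
      ≤ ∑ w ∈ (fball S).filter (fun w => ¬ w ∈ startsWith (s, true)),
          (avg m P k (FreeGroup.mk [(s, false)] * w) +
            |avg m P k w - avg m P k (FreeGroup.mk [(s, false)] * w)|) := by
        refine Finset.sum_le_sum fun w _ => ?_
        have := le_abs_self (avg m P k w - avg m P k (FreeGroup.mk [(s, false)] * w))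
        linarith
    _ = ∑ w ∈ (fball S).filter (fun w => ¬ w ∈ startsWith (s, true)),
          avg m P k (FreeGroup.mk [(s, false)] * w) +
        ∑ w ∈ (fball S).filter (fun w => ¬ w ∈ startsWith (s, true)),
            |avg m P k w - avg m P k (FreeGroup.mk [(s, false)] * w)| :=
        Finset.sum_add_distrib
    _ ≤ _ := by
        refine add_le_add ?_ ?_
        · have hinj : Set.InjOn (fun w : F => FreeGroup.mk [(s, false)] * w)
              ((fball S).filter (fun w => ¬ w ∈ startsWith (s, true)) : Set F) := by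
            intro v _ w _ hvw
            exact mul_left_cancel hvw
          rw [← Finset.sum_image (f := fun w => avg m P k w) hinj]
          have hsub : Finset.image (fun w : F => FreeGroup.mk [(s, false)] * w)
              ((fball S).filter (fun w => ¬ w ∈ startsWith (s, true))) ⊆
              (fball (S + 1)).filter (fun w => w ∈ startsWith (s, false)) := by
            intro x hx
            obtain ⟨w, hw, rfl⟩ := Finset.mem_image.1 hx
            rw [Finset.mem_filter, mem_fball] at hw ⊢
            refine ⟨?_, ?_⟩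
            · have h1 := FreeGroup.norm_mul_le (FreeGroup.mk [(s, false)]) w
              have h2 : (FreeGroup.mk [(s, false)]).norm ≤ 1 := FreeGroup.norm_mk_le
              omega
            · exact FreeGroup.startsWith_mk_mul (w := (s, false)) w hw.2
          refine (Finset.sum_le_sum_of_subset_of_nonneg hsub
            fun w _ _ => avg_nonneg P k k0 w).trans (le_of_eq ?_)
          symm
          refine Finset.sum_subset ?_ ?_
          · intro w hw
            rw [Finset.mem_filter, mem_fball] at hw ⊢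
            exact ⟨by omega, hw.2⟩
          · intro w hw hw'
            rw [Finset.mem_filter] at hw hw'
            exact avg_eq_zero P k hm hP kS hw.1 fun h => hw' ⟨h, hw.2⟩
        · exact Finset.sum_le_sum_of_subset_of_nonneg (Finset.filter_subset _ _)
            fun _ _ _ => abs_nonneg _

theorem no_almost_invariant (hm : 2 * S + 2 ≤ m) (hP : ∀ q, q ∈ P ↔ q ∈ Set.range (proj m))
    (k0 : ∀ p q, 0 ≤ k p q)
    (kS : ∀ p ∈ P, ∀ q ∈ P, k p q ≠ 0 → len m (p⁻¹ * q) ≤ S)
    (k1 : ∀ p ∈ P, |∑ q ∈ P, k p q - 1| < 1 / 4)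
    (k2 : ∀ p ∈ P, ∀ s : Bool,
      ∑ q ∈ P, |k (p * proj m (FreeGroup.of s)) q - k p q| < 1 / 4) : False := by
  classical
  have hP0 : P.Nonempty := ⟨1, (hP 1).2 ⟨1, map_one _⟩⟩
  have hcard : (0 : ℝ) < P.card := by exact_mod_cast hP0.card_pos
  have h1 : (P.card : ℝ) * (3 / 4) ≤ ∑ w ∈ fball S, avg m P k w := by
    rw [sum_avg P k hm hP kS]
    calc (P.card : ℝ) * (3 / 4) = ∑ q ∈ P, (3 / 4 : ℝ) := by
          rw [Finset.sum_const, nsmul_eq_mul]
      _ ≤ _ := Finset.sum_le_sum fun q hq => by
          have := (abs_lt.1 (k1 q hq)).1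
          linarith
  have ht := avg_paradox P k hm hP k0 kS true
  have hf := avg_paradox P k hm hP k0 kS false
  have dt := avg_diff P k hm hP hP0 k2 true
  have df := avg_diff P k hm hP hP0 k2 false
  -- the four disjoint sets
  have h4 : ∑ w ∈ (fball S).filter (fun w => w ∈ startsWith (true, true)), avg m P k w +
      ∑ w ∈ (fball S).filter (fun w => w ∈ startsWith (true, false)), avg m P k w +
      (∑ w ∈ (fball S).filter (fun w => w ∈ startsWith (false, true)), avg m P k w +
      ∑ w ∈ (fball S).filter (fun w => w ∈ startsWith (false, false)), avg m P k w) ≤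
      ∑ w ∈ fball S, avg m P k w := by
    simp only [Finset.sum_filter]
    rw [← Finset.sum_add_distrib, ← Finset.sum_add_distrib, ← Finset.sum_add_distrib]
    refine Finset.sum_le_sum fun w _ => ?_
    have hw := avg_nonneg (m := m) P k k0 w
    have hdis : ∀ a b : Bool × Bool, w ∈ startsWith a → w ∈ startsWith b → a = b := by
      intro a b ha hb
      by_contra hab
      exact (FreeGroup.startsWith.disjoint_iff_ne.2 hab).notMem_of_mem_left ha hb
    by_cases c1 : w ∈ startsWith (true, true)
    · have c2 : w ∉ startsWith (true, false) := fun h => by simpa using hdis _ _ c1 h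
      have c3 : w ∉ startsWith (false, true) := fun h => by simpa using hdis _ _ c1 h
      have c4 : w ∉ startsWith (false, false) := fun h => by simpa using hdis _ _ c1 h
      simp [c1, c2, c3, c4]
    · by_cases c2 : w ∈ startsWith (true, false)
      · have c3 : w ∉ startsWith (false, true) := fun h => by simpa using hdis _ _ c2 h
        have c4 : w ∉ startsWith (false, false) := fun h => by simpa using hdis _ _ c2 h
        simp [c1, c2, c3, c4]
      · by_cases c3 : w ∈ startsWith (false, true)
        · have c4 : w ∉ startsWith (false, false) := fun h => by simpa using hdis _ _ c3 h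
          simp [c1, c2, c3, c4]
        · by_cases c4 : w ∈ startsWith (false, false)
          · simp [c1, c2, c3, c4]
          · simp [c1, c2, c3, c4, hw]
  linarith

end

end GhostIdeals
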