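import Pool.Agent.Work.MP_6f54aa_an.Limit
import Pool.Agent.Work.MP_6f54aa_an.Paradox

/-!
# The restricted coarse groupoid is not amenable
-/

open Filter Equiv

namespace GhostIdeals

/-- The arrow from the limit of `y'` to the limit of `y`. -/
noncomputable def arrow (y y' : Yt) : Ultrafilter (Pt × Pt) :=
  (hyperfilter ℕ).map fun n => (copy y n, copy y' n)

theorem rg_arrow (y y' : Yt) : rg (arrow y y') = lim y := by
  rw [rg, arrow, Ultrafilter.map_map]; rfl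

theorem src_arrow (y y' : Yt) : src (arrow y y') = lim y' := by
  rw [src, arrow, Ultrafilter.map_map]; rfl

theorem dN_copy {y y' : Yt} (h : y' ∈ comp y) (n : ℕ) :
    Pt.dN (copy y n) (copy y' n) = len y.1.1 (y.1.2⁻¹ * y'.1.2) :=
  Pt.dN_same (x := copy y n) (y := copy y' n) ⟨rfl, (show y.1.1 = y'.1.1 from Eq.symm h)⟩

theorem arrow_mem_tube {y y' : Yt} (h : y' ∈ comp y) {R : ℝ} :
    {p : Pt × Pt | dist p.1 p.2 ≤ R} ∈ arrow y y' ↔ (len y.1.1 (y.1.2⁻¹ * y'.1.2) : ℝ) ≤ R := by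
  have h1 : ({p : Pt × Pt | dist p.1 p.2 ≤ R} ∈ arrow y y') ↔
      ∀ᶠ n in (hyperfilter ℕ : Filter ℕ), dist (copy y n) (copy y' n) ≤ R := Iff.rfl
  rw [h1]
  simp only [Pt.dist_eq, dN_copy h]
  constructor
  · intro h2; exact h2.exists.elim fun _ h => h
  · intro h2; exact Eventually.of_forall fun _ => h2

theorem arrow_mem {y y' : Yt} (h : y' ∈ comp y) : arrow y y' ∈ restricted Pt Zset := by
  refine ⟨mem_coarseGroupoid.2 ⟨_, (arrow_mem_tube h).2 le_rfl⟩, ?_, ?_⟩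
  · rw [rg_arrow]; exact lim_mem_Zset y
  · rw [src_arrow]; exact lim_mem_Zset y'

theorem lim_injective : Function.Injective lim := by
  intro y y' h
  have h1 : {x : Pt | cls x = y} ∈ lim y :=
    mem_lim.2 (Eventually.of_forall fun n => cls_copy y n)
  rw [h] at h1
  obtain ⟨n, hn⟩ := (mem_lim.1 h1).exists
  exact (show y' = y from hn).symm

theorem eq_arrow {γ : Ultrafilter (Pt × Pt)} (hγ : γ ∈ coarseGroupoid Pt) {y : Yt}
    (h : rg γ = lim y) : ∃ y' ∈ comp y, γ = arrow y y' := by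
  obtain ⟨R, hR⟩ := mem_coarseGroupoid.1 hγ
  obtain ⟨N, hN⟩ := exists_nat_ge R
  have h1 : {x : Pt | ∃ n, N ≤ n ∧ x = copy y n} ∈ rg γ := by
    rw [h]
    exact mem_lim.2 (eventually_hyper (p := fun n => ∃ n', N ≤ n' ∧ copy y n = copy y n') N
      fun n hn => ⟨n, hn, rfl⟩)
  have h2 : Prod.fst ⁻¹' {x : Pt | ∃ n, N ≤ n ∧ x = copy y n} ∈ γ := h1
  have h3 : (⋃ y' ∈ comp y, Set.range fun n => (copy y n, copy y' n)) ∈ γ := by
    refine mem_of_superset (inter_mem h2 hR) ?_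
    rintro ⟨a, b⟩ ⟨⟨n, hn, rfl⟩, hd⟩
    have hd' : dist (copy y n) b ≤ R := hd
    obtain ⟨y', hy', rfl⟩ := copy_near hd' (hN.trans (by exact_mod_cast hn))
    exact Set.mem_biUnion hy' ⟨n, rfl⟩
  rw [Ultrafilter.finite_biUnion_mem_iff (comp_finite y)] at h3
  obtain ⟨y', hy', h4⟩ := h3
  refine ⟨y', hy', ?_⟩
  refine Ultrafilter.eq_of_le fun A hA => ?_
  have hA' : ∀ᶠ n in (hyperfilter ℕ : Filter ℕ), (copy y n, copy y' n) ∈ A := hA
  have h5 : {x : Pt | ∃ n, (copy y n, copy y' n) ∈ A ∧ x = copy y n} ∈ rg γ := by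
    rw [h]
    refine mem_lim.2 ?_
    filter_upwards [hA'] with n hn
    exact ⟨n, hn, rfl⟩
  have h6 : Prod.fst ⁻¹' {x : Pt | ∃ n, (copy y n, copy y' n) ∈ A ∧ x = copy y n} ∈ γ := h5
  show A ∈ γ
  refine mem_of_superset (inter_mem h6 h4) ?_
  rintro p ⟨⟨n, hn, hx⟩, ⟨n', rfl⟩⟩
  have h7 : n' = n := copy_injective y hx
  subst h7
  exact hn

/-- The arrow as an element of the restricted groupoid. -/
noncomputable def arr (y : Yt) (y' : comp y) : restricted Pt Zset :=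
  ⟨arrow y y'.1, arrow_mem y'.2⟩

theorem continuous_map_ultrafilter {A B : Type} (f : A → B) :
    Continuous (Ultrafilter.map f) := by
  rw [ultrafilterBasis_is_basis.continuous_iff]
  rintro _ ⟨s, rfl⟩
  exact ultrafilter_isOpen_basic (f ⁻¹' s)

theorem isCompact_tube (R : ℝ) :
    IsCompact {γ : restricted Pt Zset | {p : Pt × Pt | dist p.1 p.2 ≤ R} ∈ γ.1} := by
  rw [Subtype.isCompact_iff]
  have h1 : Subtype.val '' {γ : restricted Pt Zset | {p : Pt × Pt | dist p.1 p.2 ≤ R} ∈ γ.1} =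
      {γ | {p : Pt × Pt | dist p.1 p.2 ≤ R} ∈ γ} ∩
        (rg ⁻¹' Zset ∩ src ⁻¹' Zset) := by
    ext γ
    constructor
    · rintro ⟨γ', h, rfl⟩
      exact ⟨h, γ'.2.2⟩
    · rintro ⟨h1, h2⟩
      exact ⟨⟨γ, mem_coarseGroupoid.2 ⟨R, h1⟩, h2⟩, h1, rfl⟩
  rw [h1]
  refine IsClosed.isCompact ?_
  refine (ultrafilter_isClosed_basic _).inter ?_
  exact (isClosed_closure.preimage (continuous_map_ultrafilter Prod.fst)).inter
    (isClosed_closure.preimage (continuous_map_ultrafilter Prod.snd))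

theorem exists_tube {K : Set (restricted Pt Zset)} (hK : IsCompact K) :
    ∃ S : ℕ, ∀ γ ∈ K, {p : Pt × Pt | dist p.1 p.2 ≤ (S : ℝ)} ∈ γ.1 := by
  have h1 : ∀ S : ℕ, IsOpen {γ : restricted Pt Zset |
      {p : Pt × Pt | dist p.1 p.2 ≤ (S : ℝ)} ∈ γ.1} := fun S =>
    (ultrafilter_isOpen_basic {p : Pt × Pt | dist p.1 p.2 ≤ (S : ℝ)}).preimage
      continuous_subtype_val
  have h2 : K ⊆ ⋃ S : ℕ, {γ : restricted Pt Zset |
      {p : Pt × Pt | dist p.1 p.2 ≤ (S : ℝ)} ∈ γ.1} := by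
    intro γ _
    obtain ⟨R, hR⟩ := mem_coarseGroupoid.1 γ.2.1
    obtain ⟨S, hS⟩ := exists_nat_ge R
    refine Set.mem_iUnion.2 ⟨S, mem_of_superset hR ?_⟩
    intro p hp
    exact le_trans (show dist p.1 p.2 ≤ R from hp) hS
  have h3 : Directed (· ⊆ ·) fun S : ℕ => {γ : restricted Pt Zset |
      {p : Pt × Pt | dist p.1 p.2 ≤ (S : ℝ)} ∈ γ.1} := by
    refine Monotone.directed_le ?_
    intro S S' hSS γ hγ
    refine mem_of_superset (show {p : Pt × Pt | dist p.1 p.2 ≤ (S : ℝ)} ∈ γ.1 from hγ) ?_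
    intro p hp
    exact le_trans (show dist p.1 p.2 ≤ (S : ℝ) from hp) (by exact_mod_cast hSS)
  obtain ⟨S, hS⟩ := hK.elim_directed_cover _ h1 h2 h3
  exact ⟨S, fun γ hγ => hS hγ⟩

/-- The bijection between a piece and the arrows with a given range. -/
noncomputable def fiberEquiv (y : Yt) :
    comp y ≃ {γ : restricted Pt Zset // rg γ.1 = lim y} :=
  Equiv.ofBijective (fun y' => ⟨arr y y', rg_arrow y y'.1⟩) ⟨by
    intro y' y'' h
    have h1 : arrow y y'.1 = arrow y y''.1 := congrArg (fun γ => γ.1.1) h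
    have h2 := congrArg src h1
    rw [src_arrow, src_arrow] at h2
    exact Subtype.ext (lim_injective h2), by
    rintro ⟨γ, hγ⟩
    obtain ⟨y', hy', h⟩ := eq_arrow γ.2.1 hγ
    exact ⟨⟨y', hy'⟩, Subtype.ext (Subtype.ext h.symm)⟩⟩

theorem comp_eq {y y' : Yt} (h : y' ∈ comp y) : comp y' = comp y := by
  ext z
  have h' : y'.1.1 = y.1.1 := h
  show z.1.1 = y'.1.1 ↔ z.1.1 = y.1.1
  rw [h']

/-- The bijection between a piece and the pairs `(γ₁, γ⁻¹ γ₁)`. -/
noncomputable def pairEquiv (y : Yt) (y₁ : comp y) :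
    comp y ≃ {p : restricted Pt Zset × restricted Pt Zset //
        rg p.1.1 = rg (arr y y₁).1 ∧ rg p.2.1 = src (arr y y₁).1 ∧ src p.2.1 = src p.1.1} :=
  Equiv.ofBijective (fun y' => ⟨(arr y y', arr y₁.1 ⟨y'.1, by
      rw [comp_eq y₁.2]; exact y'.2⟩), by
      refine ⟨?_, ?_, ?_⟩
      · show rg (arrow _ _) = rg (arrow _ _)
        rw [rg_arrow, rg_arrow]
      · show rg (arrow _ _) = src (arrow _ _)
        rw [rg_arrow, src_arrow]
      · show src (arrow _ _) = src (arrow _ _)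
        rw [src_arrow, src_arrow]⟩) ⟨by
    intro y' y'' h
    have h1 : arrow y y'.1 = arrow y y''.1 := congrArg (fun γ => γ.1.1.1) h
    have h2 := congrArg src h1
    rw [src_arrow, src_arrow] at h2
    exact Subtype.ext (lim_injective h2), by
    rintro ⟨⟨γ₁, γ₂⟩, h1, h2, h3⟩
    have h1' : rg γ₁.1 = lim y := h1.trans (rg_arrow _ _)
    have h2' : rg γ₂.1 = lim y₁.1 := h2.trans (src_arrow _ _)
    obtain ⟨y', hy', h4⟩ := eq_arrow γ₁.2.1 h1'
    obtain ⟨y'', hy'', h5⟩ := eq_arrow γ₂.2.1 h2'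
    have h6 : src γ₂.1 = src γ₁.1 := h3
    rw [h4, h5, src_arrow, src_arrow] at h6
    have h7 := lim_injective h6
    subst h7
    exact ⟨⟨y'', hy'⟩, Subtype.ext (Prod.ext (Subtype.ext h4.symm) (Subtype.ext h5.symm))⟩⟩

open scoped Classical in
/-- The kernel defined by a function on the groupoid. -/
noncomputable def ker (g : restricted Pt Zset → ℝ) (m : ℕ) (p q : Perm F) : ℝ :=
  if h : p ∈ Set.range (proj m) ∧ q ∈ Set.range (proj m) then
    g (arr ⟨(m, p), h.1⟩ ⟨⟨(m, q), h.2⟩, rfl⟩) else 0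

theorem ker_eq (g : restricted Pt Zset → ℝ) {m : ℕ} {p q : Perm F}
    (hp : p ∈ Set.range (proj m)) (hq : q ∈ Set.range (proj m)) :
    ker g m p q = g (arr ⟨(m, p), hp⟩ ⟨⟨(m, q), hq⟩, rfl⟩) := dif_pos ⟨hp, hq⟩

/-- The points of the piece with number `m`. -/
noncomputable def compEquiv (m : ℕ) {p : Perm F} (hp : p ∈ Set.range (proj m)) :
    {q // q ∈ (proj_range_finite m).toFinset} ≃ comp ⟨(m, p), hp⟩ where
  toFun q := ⟨⟨(m, q.1), (Set.Finite.mem_toFinset _).1 q.2⟩, rfl⟩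
  invFun y := ⟨y.1.1.2, by
    have h1 : y.1.1.1 = m := y.2
    have h2 := y.1.2
    rw [h1] at h2
    exact (Set.Finite.mem_toFinset _).2 h2⟩
  left_inv q := rfl
  right_inv y := by
    apply Subtype.ext
    apply Subtype.ext
    have h1 : y.1.1.1 = m := y.2
    exact Prod.ext h1.symm rfl

theorem not_amenable : ¬ IsAmenable Pt Zset := by
  intro h
  obtain ⟨g, _, hgc, hg0, hg1, hg2⟩ := h _ (isCompact_tube 1) (1 / 4) (by norm_num)
  obtain ⟨S, hS⟩ := exists_tube hgc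
  set m : ℕ := 2 * S + 2 with hm
  set P := (proj_range_finite m).toFinset with hP
  have hPmem : ∀ q, q ∈ P ↔ q ∈ Set.range (proj m) := fun q => by
    rw [hP, Set.Finite.mem_toFinset]
  refine no_almost_invariant (m := m) (S := S) P (ker g m) le_rfl hPmem ?_ ?_ ?_ ?_
  · intro p q
    unfold ker
    split_ifs
    · exact hg0 _
    · exact le_rfl
  · intro p hp q hq hne
    have hp' := (hPmem p).1 hp
    have hq' := (hPmem q).1 hq
    rw [ker_eq g hp' hq'] at hne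
    have h1 := hS _ (subset_tsupport g hne)
    have h2 := (arrow_mem_tube (y := ⟨(m, p), hp'⟩) (y' := ⟨(m, q), hq'⟩) rfl).1 h1
    exact_mod_cast h2
  · intro p hp
    have hp' := (hPmem p).1 hp
    have h1 := hg1 _ (lim_mem_Zset ⟨(m, p), hp'⟩)
    have h2 : ∑' γ : {γ : restricted Pt Zset // rg γ.1 = lim ⟨(m, p), hp'⟩}, g γ.1 =
        ∑ q ∈ P, ker g m p q := by
      rw [← (fiberEquiv ⟨(m, p), hp'⟩).tsum_eq, ← (compEquiv m hp').tsum_eq,
        ← Finset.sum_coe_sort, tsum_fintype]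
      refine Finset.sum_congr rfl fun q _ => ?_
      exact (ker_eq g hp' ((hPmem q.1).1 q.2)).symm
    rw [h2] at h1
    exact h1
  · intro p hp s
    have hp' := (hPmem p).1 hp
    have hps : p * proj m (FreeGroup.of s) ∈ Set.range (proj m) := by
      obtain ⟨w, rfl⟩ := hp'
      exact ⟨w * FreeGroup.of s, map_mul _ _ _⟩
    set y : Yt := ⟨(m, p), hp'⟩ with hy
    set y₁ : comp y := ⟨⟨(m, p * proj m (FreeGroup.of s)), hps⟩, rfl⟩ with hy₁
    have h0 : {p : Pt × Pt | dist p.1 p.2 ≤ 1} ∈ (arr y y₁).1 := by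
      refine (arrow_mem_tube y₁.2).2 ?_
      have h3 : len m (p⁻¹ * (p * proj m (FreeGroup.of s))) ≤ 1 := by
        rw [inv_mul_cancel_left]
        exact (len_le_norm m _).trans (by rw [FreeGroup.norm_of])
      exact_mod_cast h3
    have h1 := hg2 (arr y y₁) h0
    have h2 : ∑' p : {p : restricted Pt Zset × restricted Pt Zset //
        rg p.1.1 = rg (arr y y₁).1 ∧ rg p.2.1 = src (arr y y₁).1 ∧ src p.2.1 = src p.1.1},
          |g p.1.2 - g p.1.1| =
        ∑ q ∈ P, |ker g m (p * proj m (FreeGroup.of s)) q - ker g m p q| := by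
      rw [← (pairEquiv y y₁).tsum_eq, ← (compEquiv m hp').tsum_eq,
        ← Finset.sum_coe_sort, tsum_fintype]
      refine Finset.sum_congr rfl fun q _ => ?_
      rw [ker_eq g hp' ((hPmem q.1).1 q.2), ker_eq g hps ((hPmem q.1).1 q.2)]
      rfl
    rw [h2] at h1
    exact h1

end GhostIdeals
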