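import Mathlib

/-!
# Definitions: coarse groupoids, geometric and ghostly ideals, partial Property A

For a discrete space `X` the Stone-Cech compactification `β X` is the space `Ultrafilter X`, in
which a point `x` of `X` is the principal ultrafilter `pure x`.
-/

open scoped lp

namespace GhostIdeals

/-- Bounded geometry: for every radius the cardinalities of the balls are uniformly bounded. -/
def BoundedGeometry (X : Type) [MetricSpace X] : Prop :=
  ∀ r : ℝ, ∃ N : ℕ, ∀ x : X, (Metric.closedBall x r).encard ≤ N

/-- Strong discreteness: the set of all distances is a discrete subset of `ℝ`. -/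
def StronglyDiscrete (X : Type) [MetricSpace X] : Prop :=
  DiscreteTopology (Set.range fun p : X × X => dist p.1 p.2)

/-- The closure in `β Y = Ultrafilter Y` of a subset `A` of `Y`. -/
def betaClosure {Y : Type} (A : Set Y) : Set (Ultrafilter Y) :=
  closure ((pure : Y → Ultrafilter Y) '' A)

/-- The coarse groupoid `G(X)`: the union over `R` of the closures in `β (X × X)` of
`E_R = {(x, y) | d(x, y) ≤ R}`. -/
def coarseGroupoid (X : Type) [MetricSpace X] : Set (Ultrafilter (X × X)) :=
  ⋃ R : ℝ, betaClosure {p : X × X | dist p.1 p.2 ≤ R}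

/-- The range map `β (X × X) → β X`, induced by the first projection. -/
def rg {X : Type} (γ : Ultrafilter (X × X)) : Ultrafilter X := γ.map Prod.fst

/-- The source map `β (X × X) → β X`, induced by the second projection. -/
def src {X : Type} (γ : Ultrafilter (X × X)) : Ultrafilter X := γ.map Prod.snd

/-- `U ⊆ β X` is invariant if every element of `G(X)` with source in `U` has range in `U`. -/
def IsInvariant (X : Type) [MetricSpace X] (U : Set (Ultrafilter X)) : Prop :=
  ∀ γ ∈ coarseGroupoid X, src γ ∈ U → rg γ ∈ U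

/-- The Hilbert space `ℓ²(X)`. -/
def L2 (X : Type) : Type := ℓ²(X, ℂ)

noncomputable instance (X : Type) : NormedAddCommGroup (L2 X) := lp.normedAddCommGroup

noncomputable instance (X : Type) : NormedSpace ℂ (L2 X) := lp.instNormedSpace

/-- The algebra of bounded operators on `ℓ²(X)`. -/
def Op (X : Type) : Type := L2 X →L[ℂ] L2 X

noncomputable instance (X : Type) : NormedAddCommGroup (Op X) :=
  ContinuousLinearMap.toNormedAddCommGroup

open scoped Classical in
/-- The basis vector `δ_y` of `ℓ²(X)`. -/
noncomputable def delta {X : Type} (y : X) : L2 X :=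
  (lp.single 2 y 1 : ℓ²(X, ℂ))

/-- The value at `x` of an element `v` of `ℓ²(X)`, that is `⟨v, δ_x⟩`. -/
def coord {X : Type} (v : L2 X) (x : X) : ℂ := (show ℓ²(X, ℂ) from v) x

/-- The matrix entry `T(x, y) = ⟨T δ_y, δ_x⟩` of a bounded operator `T` on `ℓ²(X)`. -/
noncomputable def entry {X : Type} (T : Op X) (x y : X) : ℂ :=
  coord ((show L2 X →L[ℂ] L2 X from T) (delta y)) x

/-- `T` has finite propagation. -/
def FinProp {X : Type} [MetricSpace X] (T : Op X) : Prop :=
  ∃ R : ℝ, ∀ x y : X, entry T x y ≠ 0 → dist x y ≤ R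

/-- The uniform Roe algebra: the norm closure of the operators of finite propagation. -/
def uniformRoe (X : Type) [MetricSpace X] : Set (Op X) :=
  closure {T | FinProp T}

/-- The geometric ideal `I(U)`: the norm closure of the operators `T` of finite propagation such
that the closure in `β X` of the first projection of the support of `T` lies in `U`. -/
def geometricIdeal (X : Type) [MetricSpace X] (U : Set (Ultrafilter X)) : Set (Op X) :=
  closure {T | FinProp T ∧ betaClosure {x : X | ∃ y, entry T x y ≠ 0} ⊆ U}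

/-- The ghostly ideal: the operators `T` in the uniform Roe algebra such that, for all `ε > 0`,
the closure in `β X` of the first projection of the `ε`-support of `T` lies in `U`. -/
def ghostlyIdeal (X : Type) [MetricSpace X] (U : Set (Ultrafilter X)) : Set (Op X) :=
  {T | T ∈ uniformRoe X ∧
    ∀ ε : ℝ, 0 < ε → betaClosure {x : X | ∃ y, ε ≤ ‖entry T x y‖} ⊆ U}

/-- The restriction `G(X)_Z` of the coarse groupoid to a set `Z ⊆ β X` of units. -/
def restricted (X : Type) [MetricSpace X] (Z : Set (Ultrafilter X)) :
    Set (Ultrafilter (X × X)) :=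
  {γ | γ ∈ coarseGroupoid X ∧ rg γ ∈ Z ∧ src γ ∈ Z}

/-- Topological amenability of the groupoid `G(X)_Z` (for `Z` closed and invariant): for every
compact `K ⊆ G(X)_Z` and every `ε > 0` there is a non-negative `g ∈ C_c(G(X)_Z)` with
`|∑_{r(γ) = u} g(γ) - 1| < ε` for all `u ∈ Z` and
`∑_{r(γ₁) = r(γ)} |g(γ⁻¹ γ₁) - g(γ₁)| < ε` for all `γ ∈ K`. An element of `G(X)` is determined by its
range and its source, so `γ₂ = γ⁻¹ γ₁` means that `r(γ₂) = s(γ)` and `s(γ₂) = s(γ₁)`. -/
def IsAmenable (X : Type) [MetricSpace X] (Z : Set (Ultrafilter X)) : Prop :=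
  ∀ K : Set (restricted X Z), IsCompact K → ∀ ε : ℝ, 0 < ε →
    ∃ g : restricted X Z → ℝ, Continuous g ∧ HasCompactSupport g ∧ (∀ γ, 0 ≤ g γ) ∧
      (∀ u ∈ Z, |∑' γ : {γ : restricted X Z // rg γ.1 = u}, g γ.1 - 1| < ε) ∧
      ∀ γ ∈ K, ∑' p : {p : restricted X Z × restricted X Z //
        rg p.1.1 = rg γ.1 ∧ rg p.2.1 = src γ.1 ∧ src p.2.1 = src p.1.1},
          |g p.1.2 - g p.1.1| < ε

end GhostIdeals
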