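import Pool.Agent.Work.MP_6f54aa_an.Space

/-!
# The limit points and the closed invariant set
-/

open Equiv Filter

namespace GhostIdeals

theorem mem_betaClosure {Y : Type} {A : Set Y} {u : Ultrafilter Y} :
    u ∈ betaClosure A ↔ A ∈ u := by
  constructor
  · intro h
    have h1 : closure ((pure : Y → Ultrafilter Y) '' A) ⊆ {u | A ∈ u} := by
      refine closure_minimal ?_ (ultrafilter_isClosed_basic A)
      rintro _ ⟨x, hx, rfl⟩
      exact hx
    exact h1 h
  · intro h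
    rw [betaClosure, ultrafilterBasis_is_basis.mem_closure_iff]
    rintro _ ⟨s, rfl⟩ hs
    obtain ⟨x, hx1, hx2⟩ := Ultrafilter.nonempty_of_mem (inter_mem hs h)
    exact ⟨pure x, hx1, x, hx2, rfl⟩

theorem mem_coarseGroupoid {X : Type} [MetricSpace X] {γ : Ultrafilter (X × X)} :
    γ ∈ coarseGroupoid X ↔ ∃ R : ℝ, {p : X × X | dist p.1 p.2 ≤ R} ∈ γ := by
  rw [coarseGroupoid, Set.mem_iUnion]
  exact exists_congr fun R => mem_betaClosure

/-- The points of the disjoint union of the finite quotients. -/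
def Yt : Type := {y : ℕ × Perm F // y.2 ∈ Set.range (proj y.1)}

/-- The copy number `n` of the point `y`. -/
def copy (y : Yt) (n : ℕ) : Pt := ⟨(n, y.1.1, y.1.2), y.2⟩

/-- The class in the disjoint union of the finite quotients. -/
def cls (x : Pt) : Yt := ⟨(x.m, x.q), x.q_mem⟩

@[simp] theorem copy_cls (x : Pt) : copy (cls x) x.n = x := rfl
@[simp] theorem cls_copy (y : Yt) (n : ℕ) : cls (copy y n) = y := rfl
@[simp] theorem copy_n (y : Yt) (n : ℕ) : (copy y n).n = n := rfl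
@[simp] theorem copy_m (y : Yt) (n : ℕ) : (copy y n).m = y.1.1 := rfl
@[simp] theorem copy_q (y : Yt) (n : ℕ) : (copy y n).q = y.1.2 := rfl

theorem copy_injective (y : Yt) : Function.Injective (copy y) := fun n n' h => by
  have := congrArg Pt.n h
  simpa using this

/-- The piece of `Y` containing `y`. -/
def comp (y : Yt) : Set Yt := {y' | y'.1.1 = y.1.1}

theorem comp_finite (y : Yt) : (comp y).Finite := by
  refine Set.Finite.of_injOn (f := fun y' : Yt => y'.1.2)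
    (t := Set.range (proj y.1.1)) ?_ ?_ (proj_range_finite _)
  · intro y' hy'
    have := y'.2
    have h : y'.1.1 = y.1.1 := hy'
    rw [h] at this
    exact this
  · intro y' hy' y'' hy'' h
    have h1 : y'.1.1 = y.1.1 := hy'
    have h2 : y''.1.1 = y.1.1 := hy''
    exact Subtype.ext (Prod.ext (h1.trans h2.symm) h)

/-- The limit point of the copies of `y`. -/
noncomputable def lim (y : Yt) : Ultrafilter Pt := (hyperfilter ℕ).map (copy y)

theorem mem_lim {y : Yt} {A : Set Pt} : A ∈ lim y ↔ ∀ᶠ n in (hyperfilter ℕ : Filter ℕ), copy y n ∈ A :=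
  Iff.rfl

theorem eventually_hyper {p : ℕ → Prop} (R : ℕ) (h : ∀ n, R ≤ n → p n) :
    ∀ᶠ n in (hyperfilter ℕ : Filter ℕ), p n :=
  (Filter.eventually_atTop.2 ⟨R, h⟩).filter_mono Nat.hyperfilter_le_atTop

/-- The closed invariant set. -/
def Zset : Set (Ultrafilter Pt) := closure (Set.range lim)

theorem mem_Zset {u : Ultrafilter Pt} : u ∈ Zset ↔ ∀ A ∈ u, ∃ y, A ∈ lim y := by
  rw [Zset, ultrafilterBasis_is_basis.mem_closure_iff]
  constructor
  · intro h A hA
    obtain ⟨v, hv, y, rfl⟩ := h _ ⟨A, rfl⟩ hA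
    exact ⟨y, hv⟩
  · rintro h _ ⟨s, rfl⟩ hs
    obtain ⟨y, hy⟩ := h s hs
    exact ⟨lim y, hy, y, rfl⟩

theorem lim_mem_Zset (y : Yt) : lim y ∈ Zset := subset_closure ⟨y, rfl⟩

theorem betaClosure_subset {A : Set Pt} :
    betaClosure A ⊆ Zsetᶜ ↔ ∀ y, A ∉ lim y := by
  constructor
  · intro h y hy
    exact h (mem_betaClosure.2 hy) (lim_mem_Zset y)
  · intro h u hu hZ
    obtain ⟨y, hy⟩ := mem_Zset.1 hZ A (mem_betaClosure.1 hu)
    exact h y hy

theorem isOpen_compl : IsOpen (Zsetᶜ) := isClosed_closure.isOpen_compl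

theorem nonempty_compl : (Zsetᶜ).Nonempty := by
  refine ⟨pure ⟨(0, 0, 1), ⟨1, map_one _⟩⟩, fun h => ?_⟩
  obtain ⟨y, hy⟩ := mem_Zset.1 h {⟨(0, 0, 1), ⟨1, map_one _⟩⟩} (Ultrafilter.mem_pure.2 rfl)
  have h1 : ∀ᶠ n in (hyperfilter ℕ : Filter ℕ), False := by
    filter_upwards [mem_lim.1 hy, eventually_hyper (p := fun n => 1 ≤ n) 1 fun n h => h]
      with n h1 h2
    have h3 := congrArg Pt.n (Set.mem_singleton_iff.1 h1)
    have h4 : n = 0 := h3
    omega
  exact h1.exists.elim fun _ h => h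

theorem copy_near {y : Yt} {n : ℕ} {x : Pt} {R : ℝ} (h : dist (copy y n) x ≤ R)
    (hn : R ≤ n) : ∃ y' ∈ comp y, x = copy y' n := by
  have h1 : Pt.Same (copy y n) x := Pt.same_of_dist h (by
    have : (copy y n).lev = n + y.1.1 := rfl
    rw [this]; push_cast
    have : (0 : ℝ) ≤ y.1.1 := Nat.cast_nonneg _
    linarith)
  refine ⟨cls x, h1.2.symm, ?_⟩
  have h2 : x.n = n := h1.1.symm
  rw [← h2]; rfl

theorem invariant : IsInvariant Pt Zsetᶜ := by
  intro γ hγ hs hr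
  apply hs
  rw [mem_Zset] at hr ⊢
  intro A hA
  obtain ⟨R, hR⟩ := mem_coarseGroupoid.1 hγ
  have hB : {x : Pt | ∃ x' ∈ A, dist x x' ≤ R} ∈ rg γ := by
    have h1 : (Prod.snd ⁻¹' A) ∩ {p : Pt × Pt | dist p.1 p.2 ≤ R} ∈ γ := inter_mem hA hR
    show Prod.fst ⁻¹' {x : Pt | ∃ x' ∈ A, dist x x' ≤ R} ∈ γ
    refine mem_of_superset h1 ?_
    rintro p ⟨hp1, hp2⟩
    exact ⟨p.2, hp1, hp2⟩
  obtain ⟨y, hy⟩ := hr _ hB
  obtain ⟨N, hN⟩ := exists_nat_ge R
  have h2 : ∀ᶠ n in (hyperfilter ℕ : Filter ℕ), ∃ y' ∈ comp y, copy y' n ∈ A := by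
    filter_upwards [mem_lim.1 hy, eventually_hyper (p := fun n => N ≤ n) N fun n h => h]
      with n h1 h2
    obtain ⟨x', hx', hd⟩ := h1
    obtain ⟨y', hy', rfl⟩ := copy_near hd (hN.trans (by exact_mod_cast h2))
    exact ⟨y', hy', hx'⟩
  have h3 : ∃ y' ∈ comp y, {n | copy y' n ∈ A} ∈ hyperfilter ℕ := by
    have h4 : (⋃ y' ∈ comp y, {n | copy y' n ∈ A}) ∈ hyperfilter ℕ := by
      refine mem_of_superset h2 ?_
      rintro n ⟨y', hy', hn⟩
      exact Set.mem_biUnion hy' hn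
    rwa [Ultrafilter.finite_biUnion_mem_iff (comp_finite y)] at h4
  obtain ⟨y', _, h⟩ := h3
  exact ⟨y', h⟩

end GhostIdeals
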