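import Pool.Agent.Work.MP_6f54aa_an.Oper
import Pool.Agent.Work.MP_6f54aa_an.Limit

/-!
# The ghostly ideal equals the geometric ideal
-/

open scoped lp ENNReal
open Filter

namespace GhostIdeals
namespace Raw

/-- The piece containing `x`, as a finite set. -/
noncomputable def piece (x : Pt) : Finset Pt := (Pt.finite_piece x.n x.m).toFinset

theorem mem_piece {x y : Pt} : y ∈ piece x ↔ Pt.Same x y := by
  simp only [piece, Set.Finite.mem_toFinset, Set.mem_ofPred_eq, Pt.Same]
  constructor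
  · rintro ⟨h1, h2⟩; exact ⟨h1.symm, h2.symm⟩
  · rintro ⟨h1, h2⟩; exact ⟨h1.symm, h2.symm⟩

theorem piece_eq {x y : Pt} (h : Pt.Same x y) : piece x = piece y := by
  ext z
  rw [mem_piece, mem_piece]
  exact ⟨fun h' => h.symm.trans h', fun h' => h.trans h'⟩

/-- The norm of an operator with block structure. -/
theorem norm_block_le {S : ℓ²(Pt, ℂ) →L[ℂ] ℓ²(Pt, ℂ)} {N : Set Pt} {c : ℝ} (hc : 0 ≤ c)
    (hN : ∀ x ∈ N, ∀ y, Pt.Same x y → y ∈ N)
    (hS : ∀ x ∈ N, ∀ y, entry S x y ≠ 0 → Pt.Same x y)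
    (hb : ∀ x ∈ N, ‖(cut (piece x : Set Pt)).comp S‖ ≤ c) :
    ‖(cut N).comp S‖ ≤ c := by
  classical
  -- one piece
  have key : ∀ (v : ℓ²(Pt, ℂ)) (x : Pt), x ∈ N →
      ∑ y ∈ piece x, ‖S v y‖ ^ 2 ≤ c ^ 2 * ∑ y ∈ piece x, ‖v y‖ ^ 2 := by
    intro v x hx
    set w : ℓ²(Pt, ℂ) := cut (piece x : Set Pt) v with hw
    have h1 : ∀ y ∈ piece x, S v y = S w y := by
      intro y hy
      have hyN : y ∈ N := hN x hx y (mem_piece.1 hy)
      have h2 : ∀ z, z ∉ piece x → entry S y z = 0 := by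
        intro z hz
        by_contra hne
        exact hz (mem_piece.2 ((mem_piece.1 hy).trans (hS y hyN z hne)))
      rw [apply_eq_sum h2 v, apply_eq_sum h2 w]
      refine Finset.sum_congr rfl fun z hz => ?_
      rw [hw, cut_apply_mem (show z ∈ (piece x : Set Pt) from hz)]
    have h3 : ‖w‖ ^ 2 = ∑ y ∈ piece x, ‖v y‖ ^ 2 := by
      have h4 : w = ∑ y ∈ piece x, lp.single (E := fun _ : Pt => ℂ) 2 y (v y) := by
        apply lp.ext
        funext z
        rw [lp.coeFn_sum, Finset.sum_apply]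
        by_cases hz : z ∈ piece x
        · rw [hw, cut_apply_mem (show z ∈ (piece x : Set Pt) from hz),
            Finset.sum_eq_single z]
          · rw [lp.single_apply_self]
          · intro y _ hyz
            exact lp.single_apply_ne _ _ _ (Ne.symm hyz)
          · intro h; exact absurd hz h
        · rw [hw, cut_apply_notMem (show z ∉ (piece x : Set Pt) from hz)]
          refine (Finset.sum_eq_zero fun y hy => ?_).symm
          refine lp.single_apply_ne _ _ _ ?_
          rintro rfl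
          exact hz hy
      have h5 := lp.norm_sum_single (E := fun _ : Pt => ℂ) (p := 2) (by norm_num)
        (fun y => v y) (piece x)
      rw [← h4] at h5
      simpa using h5
    calc ∑ y ∈ piece x, ‖S v y‖ ^ 2
        = ∑ y ∈ piece x, ‖((cut (piece x : Set Pt)).comp S w) y‖ ^ 2 := by
          refine Finset.sum_congr rfl fun y hy => ?_
          rw [h1 y hy]
          show ‖S w y‖ ^ 2 = ‖cut (piece x : Set Pt) (S w) y‖ ^ 2
          rw [cut_apply_mem (show y ∈ (piece x : Set Pt) from hy)]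
      _ ≤ ‖(cut (piece x : Set Pt)).comp S w‖ ^ 2 := sum_sq_le _ _
      _ ≤ (c * ‖w‖) ^ 2 := by
          refine pow_le_pow_left₀ (norm_nonneg _) ?_ 2
          exact (ContinuousLinearMap.le_opNorm _ _).trans
            (mul_le_mul_of_nonneg_right (hb x hx) (norm_nonneg _))
      _ = c ^ 2 * ∑ y ∈ piece x, ‖v y‖ ^ 2 := by rw [mul_pow, h3]
  refine ContinuousLinearMap.opNorm_le_bound _ hc fun v => ?_
  refine norm_le_of_sum_sq (by positivity) fun E => ?_
  set E' := E.filter (fun x => x ∈ N) with hE'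
  have h1 : ∑ x ∈ E, ‖((cut N).comp S v) x‖ ^ 2 = ∑ x ∈ E', ‖S v x‖ ^ 2 := by
    rw [hE', Finset.sum_filter]
    refine Finset.sum_congr rfl fun x _ => ?_
    show ‖cut N (S v) x‖ ^ 2 = _
    by_cases hx : x ∈ N
    · rw [cut_apply_mem hx, if_pos hx]
    · rw [cut_apply_notMem hx, if_neg hx]; simp
  rw [h1]
  set J : Finset (Finset Pt) := E'.image piece with hJ
  have hdis : (J : Set (Finset Pt)).PairwiseDisjoint id := by
    intro s hs t ht hst
    obtain ⟨x, _, rfl⟩ := Finset.mem_image.1 (show s ∈ J from hs)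
    obtain ⟨y, _, rfl⟩ := Finset.mem_image.1 (show t ∈ J from ht)
    refine Finset.disjoint_left.2 fun z hz hz' => hst ?_
    exact piece_eq ((mem_piece.1 hz).trans (mem_piece.1 hz').symm)
  have hsub : E' ⊆ J.biUnion id := by
    intro x hx
    rw [Finset.mem_biUnion]
    exact ⟨piece x, Finset.mem_image_of_mem _ hx, mem_piece.2 (Pt.Same.refl x)⟩
  calc ∑ x ∈ E', ‖S v x‖ ^ 2 ≤ ∑ x ∈ J.biUnion id, ‖S v x‖ ^ 2 :=
        Finset.sum_le_sum_of_subset_of_nonneg hsub fun _ _ _ => by positivity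
    _ = ∑ s ∈ J, ∑ x ∈ s, ‖S v x‖ ^ 2 := Finset.sum_biUnion hdis
    _ ≤ ∑ s ∈ J, c ^ 2 * ∑ x ∈ s, ‖v x‖ ^ 2 := by
        refine Finset.sum_le_sum fun s hs => ?_
        obtain ⟨x, hx, rfl⟩ := Finset.mem_image.1 hs
        exact key v x (Finset.mem_filter.1 hx).2
    _ = c ^ 2 * ∑ x ∈ J.biUnion id, ‖v x‖ ^ 2 := by
        rw [← Finset.mul_sum, Finset.sum_biUnion hdis]; rfl
    _ ≤ c ^ 2 * ‖v‖ ^ 2 := mul_le_mul_of_nonneg_left (sum_sq_le _ _) (by positivity)
    _ = (c * ‖v‖) ^ 2 := by rw [mul_pow]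

/-- A crude bound for the norm of a piece. -/
theorem norm_piece_le {S : ℓ²(Pt, ℂ) →L[ℂ] ℓ²(Pt, ℂ)} {x : Pt} {c : ℝ} (hc : 0 ≤ c)
    (hS : ∀ y ∈ piece x, ∀ z, entry S y z ≠ 0 → Pt.Same y z)
    (hb : ∀ y ∈ piece x, ∀ z, ‖entry S y z‖ ≤ c) :
    ‖(cut (piece x : Set Pt)).comp S‖ ≤ (piece x).card * ((piece x).card * c) := by
  classical
  refine ContinuousLinearMap.opNorm_le_bound _ (by positivity) fun v => ?_
  have h1 : (cut (piece x : Set Pt)).comp S v =
      ∑ y ∈ piece x, lp.single (E := fun _ : Pt => ℂ) 2 y (S v y) := by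
    apply lp.ext
    funext z
    rw [lp.coeFn_sum, Finset.sum_apply]
    show cut (piece x : Set Pt) (S v) z = _
    by_cases hz : z ∈ piece x
    · rw [cut_apply_mem (show z ∈ (piece x : Set Pt) from hz),
        Finset.sum_eq_single z]
      · rw [lp.single_apply_self]
      · intro y _ hyz
        exact lp.single_apply_ne _ _ _ (Ne.symm hyz)
      · intro h; exact absurd hz h
    · rw [cut_apply_notMem (show z ∉ (piece x : Set Pt) from hz)]
      refine (Finset.sum_eq_zero fun y hy => ?_).symm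
      refine lp.single_apply_ne _ _ _ ?_
      rintro rfl
      exact hz hy
  rw [h1]
  calc ‖∑ y ∈ piece x, lp.single (E := fun _ : Pt => ℂ) 2 y (S v y)‖
      ≤ ∑ y ∈ piece x, ‖lp.single (E := fun _ : Pt => ℂ) 2 y (S v y)‖ := norm_sum_le _ _
    _ ≤ ∑ y ∈ piece x, (piece x).card * (c * ‖v‖) := by
        refine Finset.sum_le_sum fun y hy => ?_
        rw [lp.norm_single (by norm_num)]
        have h2 : ∀ z, z ∉ piece x → entry S y z = 0 := by
          intro z hz
          by_contra hne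
          exact hz (mem_piece.2 ((mem_piece.1 hy).trans (hS y hy z hne)))
        rw [apply_eq_sum h2 v]
        refine (norm_sum_le _ _).trans ?_
        calc ∑ z ∈ piece x, ‖v z * entry S y z‖ ≤ ∑ z ∈ piece x, c * ‖v‖ := by
              refine Finset.sum_le_sum fun z _ => ?_
              rw [norm_mul, mul_comm]
              exact mul_le_mul (hb y hy z) (norm_apply_le v z) (norm_nonneg _) hc
          _ = (piece x).card * (c * ‖v‖) := by rw [Finset.sum_const, nsmul_eq_mul]
    _ = (piece x).card * ((piece x).card * c) * ‖v‖ := by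
        rw [Finset.sum_const, nsmul_eq_mul]; ring

theorem card_piece_copy (y : Yt) (n : ℕ) :
    (piece (copy y n)).card ≤ (comp_finite y).toFinset.card := by
  refine Finset.card_le_card_of_injOn cls ?_ ?_
  · intro z hz
    have h1 := mem_piece.1 (show z ∈ piece (copy y n) from hz)
    have h2 : cls z ∈ comp y := h1.2.symm
    simpa using h2
  · intro z hz z' hz' h
    have h1 := mem_piece.1 (show z ∈ piece (copy y n) from hz)
    have h2 := mem_piece.1 (show z' ∈ piece (copy y n) from hz')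
    rw [← copy_cls z, ← copy_cls z', h, ← h1.1, ← h2.1]

/-- Ghostly operators are small on the copies of a fixed finite quotient. -/
theorem ghost_small {T : ℓ²(Pt, ℂ) →L[ℂ] ℓ²(Pt, ℂ)} (hT : T ∈ ghostlyIdeal Pt Zsetᶜ) (y : Yt)
    {ε : ℝ} (hε : 0 < ε) :
    ∀ᶠ n in (hyperfilter ℕ : Filter ℕ), ‖(cut (piece (copy y n) : Set Pt)).comp T‖ ≤ ε := by
  obtain ⟨M, hM⟩ : ∃ M : ℝ, M = (((comp_finite y).toFinset.card : ℕ) : ℝ) := ⟨_, rfl⟩
  have hM0 : 0 ≤ M := by rw [hM]; exact Nat.cast_nonneg _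
  set δ : ℝ := ε / (2 * M * M + 1) with hδ
  have hδ0 : 0 < δ := by positivity
  obtain ⟨hT1, hT2⟩ := hT
  obtain ⟨S, ⟨R, hR⟩, hS⟩ := Metric.mem_closure_iff.1 hT1 δ hδ0
  rw [dist_eq_norm] at hS
  obtain ⟨R', hR'⟩ := exists_nat_ge R
  have h1 : ∀ y' ∈ comp y, ∀ᶠ n in (hyperfilter ℕ : Filter ℕ),
      ∀ z, ‖entry T (copy y' n) z‖ < δ := by
    intro y' _
    have h2 := betaClosure_subset.1 (hT2 δ hδ0) y'
    rw [← Ultrafilter.compl_mem_iff_notMem] at h2
    filter_upwards [mem_lim.1 h2] with n hn z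
    by_contra h3
    exact hn ⟨z, not_lt.1 h3⟩
  have h2 : ∀ᶠ n in (hyperfilter ℕ : Filter ℕ), ∀ y' ∈ comp y,
      ∀ z, ‖entry T (copy y' n) z‖ < δ := (comp_finite y).eventually_all.2 h1
  filter_upwards [h2, eventually_hyper (p := fun n => R' ≤ n) R' fun n h => h] with n hn1 hn2
  have h3 : ∀ x ∈ piece (copy y n), ∃ y' ∈ comp y, x = copy y' n := by
    intro x hx
    have h1 := mem_piece.1 hx
    refine ⟨cls x, h1.2.symm, ?_⟩
    have h2 : x.n = n := h1.1.symm
    rw [← h2]; rfl
  have h4 : ‖(cut (piece (copy y n) : Set Pt)).comp S‖ ≤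
      (piece (copy y n)).card * ((piece (copy y n)).card * (2 * δ)) := by
    refine norm_piece_le (by positivity) ?_ ?_
    · intro x hx z hne
      refine Pt.same_of_dist (hR x z hne) ?_
      have h5 := (mem_piece.1 hx).lev
      have h6 : (copy y n).lev = n + y.1.1 := rfl
      rw [← h5, h6]
      have h7 : (R' : ℝ) ≤ n := by exact_mod_cast hn2
      push_cast
      have : (0 : ℝ) ≤ y.1.1 := Nat.cast_nonneg _
      linarith
    · intro x hx z
      obtain ⟨y', hy', rfl⟩ := h3 x hx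
      have h5 := hn1 y' hy' z
      have h6 := norm_entry_le (T - S) (copy y' n) z
      rw [entry_sub] at h6
      have h7 : entry S (copy y' n) z = entry T (copy y' n) z -
          (entry T (copy y' n) z - entry S (copy y' n) z) := by ring
      rw [h7]
      refine (norm_sub_le _ _).trans ?_
      linarith
  have hcard : ((piece (copy y n)).card : ℝ) ≤ M := by
    rw [hM]; exact_mod_cast card_piece_copy y n
  have h5 : ‖(cut (piece (copy y n) : Set Pt)).comp S‖ ≤ 2 * M * M * δ := by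
    refine h4.trans ?_
    calc ((piece (copy y n)).card : ℝ) * ((piece (copy y n)).card * (2 * δ))
        ≤ M * (M * (2 * δ)) := by
          refine mul_le_mul hcard (mul_le_mul_of_nonneg_right hcard (by positivity))
            (by positivity) hM0
      _ = 2 * M * M * δ := by ring
  have h6 : (cut (piece (copy y n) : Set Pt)).comp T =
      (cut (piece (copy y n) : Set Pt)).comp S +
      (cut (piece (copy y n) : Set Pt)).comp (T - S) := by
    rw [← ContinuousLinearMap.comp_add, add_sub_cancel]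
  rw [h6]
  refine (norm_add_le _ _).trans ?_
  have h7 := norm_cut_comp_le (piece (copy y n) : Set Pt) (T - S)
  have h8 : 2 * M * M * δ + δ = ε := by
    rw [hδ]; field_simp
  linarith

theorem ghostly_subset : ghostlyIdeal Pt Zsetᶜ ⊆ geometricIdeal Pt Zsetᶜ := by
  intro T hT
  refine Metric.mem_closure_iff.2 fun ε hε => ?_
  set η : ℝ := ε / 4 with hη
  have hη0 : 0 < η := by positivity
  obtain ⟨S, ⟨R, hR⟩, hS⟩ := Metric.mem_closure_iff.1 hT.1 η hη0
  rw [dist_eq_norm] at hS
  obtain ⟨R', hR'⟩ := exists_nat_ge R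
  set N : Set Pt := {x | R' ≤ x.lev ∧ ‖(cut (piece x : Set Pt)).comp T‖ ≤ η} with hN
  have hsame : ∀ x ∈ N, ∀ y, entry S x y ≠ 0 → Pt.Same x y := by
    intro x hx y hne
    refine Pt.same_of_dist (hR x y hne) ?_
    have h7 : (R' : ℝ) ≤ x.lev := by exact_mod_cast hx.1
    linarith
  have hNS : ‖(cut N).comp S‖ ≤ 2 * η := by
    refine norm_block_le (by positivity) ?_ hsame ?_
    · intro x hx y hxy
      refine ⟨?_, ?_⟩
      · rw [← hxy.lev]; exact hx.1
      · rw [← piece_eq hxy]; exact hx.2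
    · intro x hx
      have h6 : (cut (piece x : Set Pt)).comp S = (cut (piece x : Set Pt)).comp T -
          (cut (piece x : Set Pt)).comp (T - S) := by
        rw [← ContinuousLinearMap.comp_sub, sub_sub_cancel]
      rw [h6]
      refine (norm_sub_le _ _).trans ?_
      have h7 := norm_cut_comp_le (piece x : Set Pt) (T - S)
      have h8 := hx.2
      linarith
  refine ⟨(cut Nᶜ).comp S, ⟨⟨R, fun x y hne => hR x y fun h => hne ?_⟩, ?_⟩, ?_⟩
  · rw [entry_cut]
    by_cases hx : x ∈ Nᶜ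
    · rw [Set.indicator_of_mem hx, h]
    · rw [Set.indicator_of_notMem hx]
  · rw [betaClosure_subset]
    intro y hy
    have h1 : ∀ᶠ n in (hyperfilter ℕ : Filter ℕ), False := by
      filter_upwards [mem_lim.1 hy, ghost_small hT y hη0,
        eventually_hyper (p := fun n => R' ≤ n) R' fun n h => h] with n hn1 hn2 hn3
      obtain ⟨z, hz⟩ := hn1
      rw [entry_cut] at hz
      have h2 : copy y n ∈ N := by
        refine ⟨?_, hn2⟩
        have h6 : (copy y n).lev = n + y.1.1 := rfl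
        rw [h6]; omega
      exact hz (Set.indicator_of_notMem (s := Nᶜ) (fun h : copy y n ∈ Nᶜ => h h2) _)
    exact h1.exists.elim fun _ h => h
  · rw [dist_eq_norm]
    have h1 : T - (cut Nᶜ).comp S = (T - S) + (cut N).comp S := by
      have h2 := cut_add_compl N S
      nth_rewrite 2 [← h2]
      abel
    rw [h1]
    refine (norm_add_le _ _).trans_lt ?_
    linarith

theorem geometric_subset (U : Set (Ultrafilter Pt)) :
    geometricIdeal Pt U ⊆ ghostlyIdeal Pt U := by
  intro T hT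
  refine ⟨closure_mono (fun S hS => hS.1) hT, fun ε hε => ?_⟩
  obtain ⟨S, ⟨_, hS⟩, hd⟩ := Metric.mem_closure_iff.1 hT ε hε
  rw [dist_eq_norm] at hd
  refine subset_trans (fun u hu => ?_) hS
  rw [mem_betaClosure] at hu ⊢
  refine mem_of_superset hu ?_
  rintro x ⟨y, hy⟩
  refine ⟨y, fun h0 => ?_⟩
  have h1 := norm_entry_le (T - S) x y
  rw [entry_sub, h0, sub_zero] at h1
  linarith

theorem ideals_eq : ghostlyIdeal Pt Zsetᶜ = geometricIdeal Pt Zsetᶜ :=
  Set.Subset.antisymm ghostly_subset (geometric_subset _)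

end Raw
end GhostIdeals
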