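import Pool.Agent.Work.MP_6f54aa_an.Raw

/-!
# Operators on `ℓ²(X)`: matrix entries and cutting by subsets
-/

open scoped lp ENNReal

namespace GhostIdeals
namespace Raw

section
variable {X : Type}

/-- Multiplication by the characteristic function of `A`. -/
noncomputable def cut (A : Set X) : ℓ²(X, ℂ) →L[ℂ] ℓ²(X, ℂ) :=
  LinearMap.mkContinuous
    { toFun := fun v => (⟨A.indicator (v : X → ℂ), (lp.memℓp v).mono' fun i => by
          by_cases h : i ∈ A
          · rw [Set.indicator_of_mem h]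
          · rw [Set.indicator_of_notMem h, norm_zero]; exact norm_nonneg _⟩ : ℓ²(X, ℂ))
      map_add' := fun v w => by
        apply lp.ext
        funext i
        by_cases h : i ∈ A
        · simp [Set.indicator_of_mem h]
        · simp [Set.indicator_of_notMem h]
      map_smul' := fun c v => by
        apply lp.ext
        funext i
        by_cases h : i ∈ A
        · simp [Set.indicator_of_mem h]
        · simp [Set.indicator_of_notMem h] } 1 (fun v => by
      rw [one_mul]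
      refine lp.norm_mono (by norm_num) fun i => ?_
      show ‖A.indicator (v : X → ℂ) i‖ ≤ ‖v i‖
      by_cases h : i ∈ A
      · rw [Set.indicator_of_mem h]
      · rw [Set.indicator_of_notMem h, norm_zero]; exact norm_nonneg _)

theorem cut_apply (A : Set X) (v : ℓ²(X, ℂ)) (x : X) :
    cut A v x = A.indicator (v : X → ℂ) x := rfl

theorem cut_apply_mem {A : Set X} {x : X} (h : x ∈ A) (v : ℓ²(X, ℂ)) : cut A v x = v x := by
  rw [cut_apply, Set.indicator_of_mem h]

theorem cut_apply_notMem {A : Set X} {x : X} (h : x ∉ A) (v : ℓ²(X, ℂ)) : cut A v x = 0 := by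
  rw [cut_apply, Set.indicator_of_notMem h]

theorem norm_cut_le (A : Set X) : ‖cut A‖ ≤ 1 := LinearMap.mkContinuous_norm_le _ zero_le_one _

theorem norm_cut_comp_le (A : Set X) (T : ℓ²(X, ℂ) →L[ℂ] ℓ²(X, ℂ)) :
    ‖(cut A).comp T‖ ≤ ‖T‖ := by
  refine (ContinuousLinearMap.opNorm_comp_le _ _).trans ?_
  have := mul_le_mul_of_nonneg_right (norm_cut_le A) (norm_nonneg T)
  rwa [one_mul] at this

theorem cut_add_compl (A : Set X) (T : ℓ²(X, ℂ) →L[ℂ] ℓ²(X, ℂ)) :
    (cut A).comp T + (cut Aᶜ).comp T = T := by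
  ext v x
  show cut A (T v) x + cut Aᶜ (T v) x = T v x
  by_cases h : x ∈ A
  · rw [cut_apply_mem h, cut_apply_notMem (A := Aᶜ) (fun h' : x ∈ Aᶜ => h' h), add_zero]
  · rw [cut_apply_notMem h, cut_apply_mem (show x ∈ Aᶜ from h), zero_add]

theorem entry_sub (S T : ℓ²(X, ℂ) →L[ℂ] ℓ²(X, ℂ)) (x y : X) :
    entry (S - T) x y = entry S x y - entry T x y := rfl

theorem norm_apply_le (v : ℓ²(X, ℂ)) (x : X) : ‖v x‖ ≤ ‖v‖ :=
  lp.norm_apply_le_norm (by norm_num) v x

theorem norm_entry_le (T : ℓ²(X, ℂ) →L[ℂ] ℓ²(X, ℂ)) (x y : X) : ‖entry T x y‖ ≤ ‖T‖ := by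
  classical
  refine (norm_apply_le _ x).trans ?_
  refine (T.le_opNorm _).trans ?_
  rw [lp.norm_single (by norm_num), norm_one, mul_one]

theorem entry_cut (A : Set X) (T : ℓ²(X, ℂ) →L[ℂ] ℓ²(X, ℂ)) (x y : X) :
    entry ((cut A).comp T) x y = A.indicator (fun x => entry T x y) x := by
  by_cases h : x ∈ A
  · rw [Set.indicator_of_mem h]
    exact cut_apply_mem h _
  · rw [Set.indicator_of_notMem h]
    exact cut_apply_notMem h _

theorem hasSum_entry (T : ℓ²(X, ℂ) →L[ℂ] ℓ²(X, ℂ)) (v : ℓ²(X, ℂ)) (x : X) :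
    HasSum (fun y => v y * entry T x y) (T v x) := by
  classical
  have h1 : HasSum (fun y => lp.single 2 y (v y)) v :=
    lp.hasSum_single (E := fun _ : X => ℂ) (p := 2) (by norm_num) v
  have h2 := ((lp.evalCLM ℂ (fun _ : X => ℂ) 2 x).comp T).hasSum h1
  have key : ∀ y, ((lp.evalCLM ℂ (fun _ : X => ℂ) 2 x).comp T) (lp.single 2 y (v y)) =
      v y * entry T x y := by
    intro y
    have h3 : lp.single (E := fun _ : X => ℂ) 2 y (v y) =
        v y • lp.single (E := fun _ : X => ℂ) 2 y (1 : ℂ) := by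
      rw [← lp.single_smul, smul_eq_mul, mul_one]
    rw [h3, map_smul, smul_eq_mul]
    congr 1
  simp only [key] at h2
  exact h2

theorem apply_eq_sum {T : ℓ²(X, ℂ) →L[ℂ] ℓ²(X, ℂ)} {x : X} {E : Finset X}
    (h : ∀ y, y ∉ E → entry T x y = 0) (v : ℓ²(X, ℂ)) :
    T v x = ∑ y ∈ E, v y * entry T x y := by
  refine (hasSum_entry T v x).unique (hasSum_sum_of_ne_finset_zero fun y hy => ?_)
  rw [h y hy, mul_zero]

theorem sum_sq_le (v : ℓ²(X, ℂ)) (E : Finset X) : ∑ x ∈ E, ‖v x‖ ^ 2 ≤ ‖v‖ ^ 2 := by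
  have := lp.sum_rpow_le_norm_rpow (E := fun _ : X => ℂ) (p := 2) (by norm_num) v E
  simpa using this

theorem norm_le_of_sum_sq {v : ℓ²(X, ℂ)} {C : ℝ} (hC : 0 ≤ C)
    (h : ∀ E : Finset X, ∑ x ∈ E, ‖v x‖ ^ 2 ≤ C ^ 2) : ‖v‖ ≤ C := by
  refine lp.norm_le_of_forall_sum_le (E := fun _ : X => ℂ) (p := 2) (by norm_num) hC fun E => ?_
  simpa using h E

end

end Raw
end GhostIdeals
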