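import Mathlib

/-!
# Finite quotients of the free group of rank two
-/

open Equiv

namespace GhostIdeals

abbrev F := FreeGroup Bool

theorem finite_norm_le (m : ℕ) : {w : F | w.norm ≤ m}.Finite := by
  induction m with
  | zero =>
    refine (Set.finite_singleton (1 : F)).subset fun w hw => ?_
    have h : w.norm = 0 := Nat.le_zero.1 hw
    exact FreeGroup.norm_eq_zero.1 h
  | succ m ih =>
    have h1 : ({w : F | w.norm ≤ m + 1}) ⊆
        {1} ∪ ⋃ s : Bool × Bool, (fun w : F => FreeGroup.mk [s] * w) '' {w : F | w.norm ≤ m} := by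
      intro w hw
      rcases hl : w.toWord with _ | ⟨s, l⟩
      · left
        exact FreeGroup.toWord_eq_nil_iff.1 hl
      · right
        refine Set.mem_iUnion.2 ⟨s, FreeGroup.mk l, ?_, ?_⟩
        · have h2 : w.norm = l.length + 1 := by
            rw [FreeGroup.norm, hl]; rfl
          have h3 : (FreeGroup.mk l).norm ≤ l.length := FreeGroup.norm_mk_le
          have h4 : w.norm ≤ m + 1 := hw
          show (FreeGroup.mk l).norm ≤ m
          omega
        · show FreeGroup.mk [s] * FreeGroup.mk l = w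
          rw [FreeGroup.mul_mk, List.singleton_append, ← hl, FreeGroup.mk_toWord]
    exact ((Set.finite_singleton _).union (Set.finite_iUnion fun s => ih.image _)).subset h1

/-- The ball of radius `m + 1`. -/
def ball (m : ℕ) : Set F := {w | w.norm ≤ m + 1}

instance (m : ℕ) : Finite (ball m) := (finite_norm_le (m + 1)).to_subtype

theorem one_mem_ball (m : ℕ) : (1 : F) ∈ ball m := by
  show FreeGroup.norm (1 : F) ≤ m + 1
  rw [FreeGroup.norm_one]; omega

/-- Left multiplication by a generator as a partial bijection of the ball. -/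
def partialMul (m : ℕ) (s : Bool) :
    {w : ball m // FreeGroup.of s * w.1 ∈ ball m} ≃
      {w : ball m // (FreeGroup.of s)⁻¹ * w.1 ∈ ball m} where
  toFun w := ⟨⟨FreeGroup.of s * w.1.1, w.2⟩, by
    show (FreeGroup.of s)⁻¹ * (FreeGroup.of s * w.1.1) ∈ ball m
    rw [inv_mul_cancel_left]; exact w.1.2⟩
  invFun w := ⟨⟨(FreeGroup.of s)⁻¹ * w.1.1, w.2⟩, by
    show (FreeGroup.of s) * ((FreeGroup.of s)⁻¹ * w.1.1) ∈ ball m
    rw [mul_inv_cancel_left]; exact w.1.2⟩
  left_inv w := by
    apply Subtype.ext; apply Subtype.ext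
    exact inv_mul_cancel_left _ _
  right_inv w := by
    apply Subtype.ext; apply Subtype.ext
    exact mul_inv_cancel_left _ _

open scoped Classical in
/-- A permutation of the ball extending the left multiplication by a generator. -/
noncomputable def genPerm (m : ℕ) (s : Bool) : Perm (ball m) := (partialMul m s).extendSubtype

theorem genPerm_apply {m : ℕ} {s : Bool} (w : ball m) (h : FreeGroup.of s * w.1 ∈ ball m) :
    genPerm m s w = ⟨FreeGroup.of s * w.1, h⟩ := by
  classical
  have := (partialMul m s).extendSubtype_apply_of_mem w h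
  rw [genPerm]
  exact this

open scoped Classical in
/-- A homomorphism from the free group to a finite group of permutations. -/
noncomputable def proj (m : ℕ) : F →* Perm F :=
  (Perm.ofSubtype (p := fun w => w ∈ ball m)).comp (FreeGroup.lift (genPerm m))

theorem proj_range_finite (m : ℕ) : (Set.range (proj m)).Finite := by
  classical
  have : Set.range (proj m) ⊆ Set.range (Perm.ofSubtype (p := fun w => w ∈ ball m)) := by
    rintro _ ⟨w, rfl⟩
    exact ⟨_, rfl⟩
  exact (Set.finite_range _).subset this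

theorem lift_letter {m : ℕ} (s : Bool × Bool) (w : ball m) (h : FreeGroup.mk [s] * w.1 ∈ ball m) :
    FreeGroup.lift (genPerm m) (FreeGroup.mk [s]) w = ⟨FreeGroup.mk [s] * w.1, h⟩ := by
  obtain ⟨s, b⟩ := s
  cases b with
  | true =>
    have h1 : FreeGroup.mk [(s, true)] = FreeGroup.of s := rfl
    have h2 : FreeGroup.lift (genPerm m) (FreeGroup.mk [(s, true)]) = genPerm m s := by
      rw [h1, FreeGroup.lift_apply_of]
    rw [h2]
    exact genPerm_apply w h
  | false =>
    have h1 : FreeGroup.mk [(s, false)] = (FreeGroup.of s)⁻¹ := rfl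
    have h2 : FreeGroup.lift (genPerm m) (FreeGroup.mk [(s, false)]) = (genPerm m s)⁻¹ := by
      rw [h1, map_inv, FreeGroup.lift_apply_of]
    rw [h2, Perm.inv_eq_iff_eq]
    have h3 : FreeGroup.of s * (FreeGroup.mk [(s, false)] * w.1) = w.1 := by
      rw [h1, mul_inv_cancel_left]
    rw [genPerm_apply _ (by show FreeGroup.of s * (FreeGroup.mk [(s, false)] * w.1) ∈ ball m
                            rw [h3]; exact w.2)]
    exact Subtype.ext h3.symm

theorem lift_word {m : ℕ} (l : List (Bool × Bool)) (hl : l.length ≤ m + 1) :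
    ((FreeGroup.lift (genPerm m) (FreeGroup.mk l) ⟨1, one_mem_ball m⟩ : ball m) : F) =
      FreeGroup.mk l := by
  induction l with
  | nil =>
    have : FreeGroup.mk ([] : List (Bool × Bool)) = 1 := rfl
    rw [this, map_one]; rfl
  | cons s l ih =>
    have hl' : l.length ≤ m + 1 := by simp at hl; omega
    have h1 : FreeGroup.mk (s :: l) = FreeGroup.mk [s] * FreeGroup.mk l := by
      rw [FreeGroup.mul_mk]; rfl
    have h2 := ih hl'
    rw [h1, map_mul, Perm.mul_apply]
    have h3 : FreeGroup.lift (genPerm m) (FreeGroup.mk l) ⟨1, one_mem_ball m⟩ =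
        (⟨FreeGroup.mk l, FreeGroup.norm_mk_le.trans hl'⟩ : ball m) := Subtype.ext h2
    rw [h3, lift_letter]
    show FreeGroup.mk [s] * FreeGroup.mk l ∈ ball m
    rw [← h1]
    exact FreeGroup.norm_mk_le.trans hl

theorem proj_eq_one {m : ℕ} {w : F} (hw : w.norm ≤ m + 1) (h : proj m w = 1) : w = 1 := by
  classical
  have h1 : FreeGroup.lift (genPerm m) w = 1 :=
    Perm.ofSubtype_injective (p := fun w => w ∈ ball m) (by rw [map_one]; exact h)
  have h2 := lift_word (m := m) w.toWord hw
  rw [FreeGroup.mk_toWord, h1] at h2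
  exact h2.symm

theorem proj_inj {m : ℕ} {v w : F} (hv : v.norm + w.norm ≤ m + 1) (h : proj m v = proj m w) :
    v = w := by
  have h1 : proj m (v⁻¹ * w) = 1 := by rw [map_mul, map_inv, h, inv_mul_cancel]
  have h2 : v⁻¹ * w = 1 := proj_eq_one
    (by have := FreeGroup.norm_mul_le v⁻¹ w; rw [FreeGroup.norm_inv_eq] at this; omega) h1
  exact inv_mul_eq_one.1 h2

/-- The truncated word length on the range of `proj m`. -/
noncomputable def len (m : ℕ) (q : Perm F) : ℕ :=
  sInf {k : ℕ | k = m + 1 ∨ ∃ w : F, w.norm = k ∧ proj m w = q}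

theorem len_le (m : ℕ) (q : Perm F) : len m q ≤ m + 1 := Nat.sInf_le (Or.inl rfl)

theorem len_le_norm (m : ℕ) (w : F) : len m (proj m w) ≤ w.norm :=
  Nat.sInf_le (Or.inr ⟨w, rfl, rfl⟩)

theorem len_mem (m : ℕ) (q : Perm F) :
    len m q = m + 1 ∨ ∃ w : F, w.norm = len m q ∧ proj m w = q :=
  Nat.sInf_mem (s := {k : ℕ | k = m + 1 ∨ ∃ w : F, w.norm = k ∧ proj m w = q})
    ⟨m + 1, Or.inl rfl⟩

theorem exists_of_len_le {m r : ℕ} {q : Perm F} (h : len m q ≤ r) (hr : r ≤ m) :
    ∃ w : F, w.norm ≤ r ∧ proj m w = q := by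
  rcases len_mem m q with h1 | ⟨w, h1, h2⟩
  · omega
  · exact ⟨w, by omega, h2⟩

theorem len_one (m : ℕ) : len m 1 = 0 := by
  have := len_le_norm m 1
  rw [map_one, FreeGroup.norm_one] at this
  omega

theorem eq_one_of_len {m : ℕ} {q : Perm F} (h : len m q = 0) : q = 1 := by
  rcases len_mem m q with h1 | ⟨w, h1, h2⟩
  · omega
  · rw [h] at h1
    rw [← h2, FreeGroup.norm_eq_zero.1 h1, map_one]

theorem len_inv_le (m : ℕ) (q : Perm F) : len m q⁻¹ ≤ len m q := by
  rcases len_mem m q with h1 | ⟨w, h1, h2⟩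
  · rw [h1]; exact len_le _ _
  · rw [← h1, ← h2, ← map_inv, ← FreeGroup.norm_inv_eq]
    exact len_le_norm _ _

theorem len_inv (m : ℕ) (q : Perm F) : len m q⁻¹ = len m q :=
  le_antisymm (len_inv_le m q) (by simpa using len_inv_le m q⁻¹)

theorem len_mul_le (m : ℕ) (p q : Perm F) : len m (p * q) ≤ len m p + len m q := by
  rcases len_mem m p with h1 | ⟨v, h1, h2⟩
  · have := len_le m (p * q); omega
  · rcases len_mem m q with h3 | ⟨w, h3, h4⟩
    · have := len_le m (p * q); omega
    · rw [← h1, ← h3]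
      refine le_trans ?_ (FreeGroup.norm_mul_le v w)
      rw [← h2, ← h4, ← map_mul]
      exact len_le_norm _ _

end GhostIdeals
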