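import Pool.Agent.Work.MP_6f54aa_an.Defs

/-!
# The same definitions, stated directly with `lp` and continuous linear maps
-/

open scoped lp

namespace GhostIdeals
namespace Raw

open scoped Classical in
/-- The matrix entry `T(x, y) = ⟨T δ_y, δ_x⟩` of a bounded operator `T` on `ℓ²(X)`. -/
noncomputable def entry {X : Type} (T : ℓ²(X, ℂ) →L[ℂ] ℓ²(X, ℂ)) (x y : X) : ℂ :=
  T (lp.single 2 y 1) x

/-- `T` has finite propagation. -/
def FinProp {X : Type} [MetricSpace X] (T : ℓ²(X, ℂ) →L[ℂ] ℓ²(X, ℂ)) : Prop :=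
  ∃ R : ℝ, ∀ x y : X, entry T x y ≠ 0 → dist x y ≤ R

/-- The uniform Roe algebra: the norm closure of the operators of finite propagation. -/
def uniformRoe (X : Type) [MetricSpace X] : Set (ℓ²(X, ℂ) →L[ℂ] ℓ²(X, ℂ)) :=
  closure {T | FinProp T}

/-- The geometric ideal `I(U)`: the norm closure of the operators `T` of finite propagation such
that the closure in `β X` of the first projection of the support of `T` lies in `U`. -/
def geometricIdeal (X : Type) [MetricSpace X] (U : Set (Ultrafilter X)) :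
    Set (ℓ²(X, ℂ) →L[ℂ] ℓ²(X, ℂ)) :=
  closure {T | FinProp T ∧ betaClosure {x : X | ∃ y, entry T x y ≠ 0} ⊆ U}

/-- The ghostly ideal: the operators `T` in the uniform Roe algebra such that, for all `ε > 0`,
the closure in `β X` of the first projection of the `ε`-support of `T` lies in `U`. -/
def ghostlyIdeal (X : Type) [MetricSpace X] (U : Set (Ultrafilter X)) :
    Set (ℓ²(X, ℂ) →L[ℂ] ℓ²(X, ℂ)) :=
  {T | T ∈ uniformRoe X ∧
    ∀ ε : ℝ, 0 < ε → betaClosure {x : X | ∃ y, ε ≤ ‖entry T x y‖} ⊆ U}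


theorem eq_iff {X : Type} [MetricSpace X] (U : Set (Ultrafilter X)) :
    (GhostIdeals.ghostlyIdeal X U = GhostIdeals.geometricIdeal X U) ↔
      (ghostlyIdeal X U = geometricIdeal X U) := Iff.rfl

end Raw
end GhostIdeals
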