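import Pool.Agent.Work.MP_6f54aa_an.Pieces
import Pool.Agent.Work.MP_6f54aa_an.Defs

/-!
# The space: infinitely many copies of each finite quotient, far apart from each other
-/

open Equiv

namespace GhostIdeals

/-- The points `(n, m, q)`: the point `q` of the `n`-th copy of the `m`-th finite quotient. -/
def Pt : Type := {x : ℕ × ℕ × Perm F // x.2.2 ∈ Set.range (proj x.2.1)}

namespace Pt

/-- The number of the copy. -/
def n (x : Pt) : ℕ := x.1.1

/-- The number of the quotient. -/
def m (x : Pt) : ℕ := x.1.2.1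

/-- The position in the quotient. -/
def q (x : Pt) : Perm F := x.1.2.2

theorem q_mem (x : Pt) : x.q ∈ Set.range (proj x.m) := x.2

theorem ext' {x y : Pt} (h1 : x.n = y.n) (h2 : x.m = y.m) (h3 : x.q = y.q) : x = y := by
  apply Subtype.ext
  exact Prod.ext h1 (Prod.ext h2 h3)

/-- The level of the piece of a point. -/
def lev (x : Pt) : ℕ := x.n + x.m

/-- `x` and `y` are in the same piece. -/
def Same (x y : Pt) : Prop := x.n = y.n ∧ x.m = y.m

theorem Same.refl (x : Pt) : Same x x := ⟨rfl, rfl⟩
theorem Same.symm {x y : Pt} (h : Same x y) : Same y x := ⟨h.1.symm, h.2.symm⟩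
theorem Same.trans {x y z : Pt} (h : Same x y) (h' : Same y z) : Same x z :=
  ⟨h.1.trans h'.1, h.2.trans h'.2⟩
theorem Same.lev {x y : Pt} (h : Same x y) : x.lev = y.lev := by
  unfold Pt.lev; rw [h.1, h.2]

open scoped Classical in
/-- The distance, with values in the natural numbers. -/
noncomputable def dN (x y : Pt) : ℕ :=
  if Same x y then len x.m (x.q⁻¹ * y.q) else max x.lev y.lev + 1

theorem dN_same {x y : Pt} (h : Same x y) : dN x y = len x.m (x.q⁻¹ * y.q) := if_pos h
theorem dN_not {x y : Pt} (h : ¬ Same x y) : dN x y = max x.lev y.lev + 1 := if_neg h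

theorem dN_same_le {x y : Pt} (h : Same x y) : dN x y ≤ x.lev + 1 := by
  rw [dN_same h]
  have := len_le x.m (x.q⁻¹ * y.q)
  unfold lev
  omega

theorem dN_self (x : Pt) : dN x x = 0 := by
  rw [dN_same (Same.refl x), inv_mul_cancel, len_one]

theorem dN_comm (x y : Pt) : dN x y = dN y x := by
  by_cases h : Same x y
  · rw [dN_same h, dN_same h.symm, ← len_inv, mul_inv_rev, inv_inv, h.2]
  · rw [dN_not h, dN_not (fun h' => h h'.symm), max_comm]

theorem dN_triangle (x y z : Pt) : dN x z ≤ dN x y + dN y z := by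
  by_cases hxy : Same x y
  · by_cases hyz : Same y z
    · have hxz := hxy.trans hyz
      rw [dN_same hxy, dN_same hyz, dN_same hxz, ← hxy.2]
      have : x.q⁻¹ * z.q = (x.q⁻¹ * y.q) * (y.q⁻¹ * z.q) := by group
      rw [this]
      exact len_mul_le _ _ _
    · have hxz : ¬ Same x z := fun h => hyz (hxy.symm.trans h)
      rw [dN_not hyz, dN_not hxz, hxy.lev]
      omega
  · by_cases hyz : Same y z
    · have hxz : ¬ Same x z := fun h => hxy (h.trans hyz.symm)
      rw [dN_not hxy, dN_not hxz, hyz.lev]
      omega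
    · by_cases hxz : Same x z
      · have h1 := dN_same_le hxz
        have h2 := dN_not hxy
        have h3 : x.lev ≤ max x.lev y.lev := le_max_left _ _
        omega
      · rw [dN_not hxy, dN_not hyz, dN_not hxz]
        have h1 : x.lev ≤ max x.lev y.lev := le_max_left _ _
        have h2 : z.lev ≤ max y.lev z.lev := le_max_right _ _
        have h3 : max x.lev z.lev ≤ x.lev + z.lev := by
          rcases max_cases x.lev z.lev with h | h <;> omega
        have h4 : max x.lev z.lev = x.lev ∨ max x.lev z.lev = z.lev := by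
          rcases max_cases x.lev z.lev with h | h <;> omega
        rcases h4 with h4 | h4 <;> omega

theorem eq_of_dN {x y : Pt} (h : dN x y = 0) : x = y := by
  by_cases hxy : Same x y
  · rw [dN_same hxy] at h
    have h1 := eq_one_of_len h
    exact ext' hxy.1 hxy.2 (inv_mul_eq_one.1 h1)
  · rw [dN_not hxy] at h
    omega

noncomputable instance : MetricSpace Pt where
  dist x y := (dN x y : ℝ)
  dist_self x := by rw [dN_self]; norm_num
  dist_comm x y := by rw [dN_comm]
  dist_triangle x y z := by exact_mod_cast dN_triangle x y z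
  eq_of_dist_eq_zero {x y} h := eq_of_dN (by exact_mod_cast h)

theorem dist_eq (x y : Pt) : dist x y = (dN x y : ℝ) := rfl

theorem same_of_dist {x y : Pt} {R : ℝ} (h : dist x y ≤ R) (hx : R < x.lev + 1) : Same x y := by
  by_contra hxy
  rw [dist_eq, dN_not hxy] at h
  push_cast at h
  have : (x.lev : ℝ) ≤ max (x.lev : ℝ) (y.lev : ℝ) := le_max_left _ _
  linarith

theorem stronglyDiscrete : StronglyDiscrete Pt := by
  unfold StronglyDiscrete
  have h1 : DiscreteTopology (Set.range ((↑) : ℕ → ℝ)) := by
    exact Nat.isClosedEmbedding_coe_real.isEmbedding.toHomeomorph.symm.isEmbedding.discreteTopology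
  refine DiscreteTopology.of_subset h1 ?_
  rintro _ ⟨p, rfl⟩
  exact ⟨dN p.1 p.2, rfl⟩

theorem finite_lev (R : ℕ) : {y : Pt | y.lev ≤ R}.Finite := by
  have h1 : ((Set.Iic R : Set ℕ) ×ˢ ((Set.Iic R : Set ℕ) ×ˢ
      (⋃ m ∈ Set.Iic R, Set.range (proj m)))).Finite :=
    (Set.finite_Iic R).prod ((Set.finite_Iic R).prod
      ((Set.finite_Iic R).biUnion fun m _ => proj_range_finite m))
  refine Set.Finite.of_injOn (f := fun y : Pt => y.1) ?_ ?_ h1
  · intro y hy
    have hy' : y.n + y.m ≤ R := hy
    refine ⟨?_, ?_, ?_⟩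
    · show y.n ≤ R
      omega
    · show y.m ≤ R
      omega
    · refine Set.mem_biUnion (x := y.m) ?_ y.q_mem
      show y.m ≤ R
      omega
  · intro y _ z _ h
    exact Subtype.ext h

theorem finite_piece (n m : ℕ) : {y : Pt | y.n = n ∧ y.m = m}.Finite := by
  refine (finite_lev (n + m)).subset ?_
  rintro y ⟨h1, h2⟩
  show y.n + y.m ≤ n + m
  omega

theorem near_encard (x : Pt) (R : ℕ) :
    {y : Pt | Same x y ∧ dN x y ≤ R}.encard ≤
      (((finite_norm_le R).toFinset.card +
        ∑ m ∈ Finset.range R, (proj_range_finite m).toFinset.card : ℕ) : ℕ∞) := by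
  have hinj : Set.InjOn (fun y : Pt => y.q) {y : Pt | Same x y ∧ dN x y ≤ R} := by
    intro y hy z hz h
    exact ext' (hy.1.1.symm.trans hz.1.1) (hy.1.2.symm.trans hz.1.2) h
  rw [← hinj.encard_image]
  by_cases hR : R ≤ x.m
  · have hsub : (fun y : Pt => y.q) '' {y : Pt | Same x y ∧ dN x y ≤ R} ⊆
        (fun w : F => x.q * proj x.m w) '' ((finite_norm_le R).toFinset : Set F) := by
      rintro _ ⟨y, ⟨h1, h2⟩, rfl⟩
      rw [dN_same h1] at h2
      obtain ⟨w, hw, hw'⟩ := exists_of_len_le h2 hR
      refine ⟨w, by simpa using hw, ?_⟩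
      show x.q * proj x.m w = y.q
      rw [hw', mul_inv_cancel_left]
    refine (Set.encard_le_encard hsub).trans ((Set.encard_image_le _ _).trans ?_)
    rw [Set.encard_coe_eq_coe_finsetCard]
    exact_mod_cast Nat.le_add_right _ _
  · have hsub : (fun y : Pt => y.q) '' {y : Pt | Same x y ∧ dN x y ≤ R} ⊆
        ((proj_range_finite x.m).toFinset : Set (Perm F)) := by
      rintro _ ⟨y, ⟨h1, _⟩, rfl⟩
      have := y.q_mem
      rw [← h1.2] at this
      simpa using this
    refine (Set.encard_le_encard hsub).trans ?_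
    rw [Set.encard_coe_eq_coe_finsetCard]
    have h3 : (proj_range_finite x.m).toFinset.card ≤
        ∑ m ∈ Finset.range R, (proj_range_finite m).toFinset.card :=
      Finset.single_le_sum (f := fun m => (proj_range_finite m).toFinset.card)
        (fun _ _ => Nat.zero_le _) (Finset.mem_range.2 (by omega))
    exact_mod_cast h3.trans (Nat.le_add_left _ _)

theorem boundedGeometry : BoundedGeometry Pt := by
  intro r
  obtain ⟨R, hR⟩ := exists_nat_ge r
  refine ⟨((finite_norm_le R).toFinset.card +
        ∑ m ∈ Finset.range R, (proj_range_finite m).toFinset.card) +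
        (finite_lev R).toFinset.card, fun x => ?_⟩
  have hsub : Metric.closedBall x r ⊆ {y : Pt | Same x y ∧ dN x y ≤ R} ∪
      ((finite_lev R).toFinset : Set Pt) := by
    intro y hy
    have h1 : (dN x y : ℝ) ≤ R := by
      have : dist y x ≤ r := hy
      rw [dist_comm, dist_eq] at this
      linarith
    have h2 : dN x y ≤ R := by exact_mod_cast h1
    by_cases hxy : Same x y
    · exact Or.inl ⟨hxy, h2⟩
    · right
      rw [dN_not hxy] at h2
      have h3 : y.lev ≤ max x.lev y.lev := le_max_right _ _
      have : y.lev ≤ R := by omega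
      simpa using this
  refine (Set.encard_le_encard hsub).trans ((Set.encard_union_le _ _).trans ?_)
  have h1 := near_encard x R
  rw [Set.encard_coe_eq_coe_finsetCard, Nat.cast_add]
  exact add_le_add h1 le_rfl

end Pt

end GhostIdeals
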